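import Pool.Agent.H839R3.Nas.Stmts2

/-!
# The concrete forcing
-/

set_option autoImplicit false

namespace Pool.Agent.H839R3.Nas

open Nm

namespace Cc

/-- the cells -/
abbrev Cl : Type := V × ℕ

/-- the conditions -/
def Pc : Type := {p : Cl → ZMod 3 // {c | p c ≠ 0}.Finite}

instance : Preorder Pc where
  le q p := ∀ c, p.1 c ≠ 0 → q.1 c = p.1 c
  le_refl p c _ := rfl
  le_trans r q p h1 h2 c hc := by
    have h3 := h2 c hc
    rw [← h3]
    exact h1 c (by rw [h3]; exact hc)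

theorem le_def (q p : Pc) : q ≤ p ↔ ∀ c, p.1 c ≠ 0 → q.1 c = p.1 c := Iff.rfl

instance : OrderTop Pc where
  top := ⟨fun _ => 0, by simp⟩
  le_top p c hc := absurd rfl hc

theorem top_val (c : Cl) : (⊤ : Pc).1 c = 0 := rfl

theorem Pc.ext {p q : Pc} (h : ∀ c, p.1 c = q.1 c) : p = q := Subtype.ext (funext h)

instance : _root_.Countable Pc := by
  have hinj : Function.Injective
      (fun p : Pc => (Finsupp.ofSupportFinite p.1 p.2 : Cl →₀ ZMod 3)) := by
    intro p q h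
    apply Pc.ext
    intro c
    have := DFunLike.congr_fun h c
    exact this
  exact hinj.countable

/-- the single conditions -/
def sg (a : V) (n : ℕ) (x : ZMod 3) : Pc :=
  ⟨fun c => if c = (a, n) then x else 0, by
    apply (Set.finite_singleton (a, n)).subset
    intro c hc
    by_contra h
    apply hc
    exact if_neg h⟩

theorem sg_val (a : V) (n : ℕ) (x : ZMod 3) (c : Cl) :
    (sg a n x).1 c = if c = (a, n) then x else 0 := rfl

/-- the map of the cells -/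
noncomputable def cm (h : V ≃+ V) (c : Cl) : Cl := (h c.1, c.2)

theorem cm_symm (h : V ≃+ V) (c : Cl) : cm h (cm h.symm c) = c := by
  simp [cm]

theorem cm_symm' (h : V ≃+ V) (c : Cl) : cm h.symm (cm h c) = c := by
  simp [cm]

theorem cm_inj (h : V ≃+ V) : Function.Injective (cm h) := by
  intro c d hcd
  rw [← cm_symm' h c, hcd, cm_symm' h d]

theorem units_smul_ne {u : ℤˣ} {x : ZMod 3} : u • x ≠ 0 ↔ x ≠ 0 := by
  rw [Ne, Ne, smul_eq_zero_iff_eq]

/-- `σ` is given by `h` and the flips `t`. -/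
def R (σ : Pc ≃o Pc) (h : V ≃+ V) (t : Cl → ℤˣ) : Prop :=
  ∀ p c, (σ p).1 c = t c • p.1 (cm h.symm c)

/-- the automorphism given by `h` and `t` -/
noncomputable def mk (h : V ≃+ V) (t : Cl → ℤˣ) : Pc ≃o Pc where
  toFun p := ⟨fun c => t c • p.1 (cm h.symm c), by
    apply (p.2.preimage (f := cm h.symm) ((cm_inj _).injOn)).subset
    intro c hc
    exact units_smul_ne.1 hc⟩
  invFun p := ⟨fun c => (t (cm h c))⁻¹ • p.1 (cm h c), by
    apply (p.2.preimage (f := cm h) ((cm_inj _).injOn)).subset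
    intro c hc
    exact units_smul_ne.1 hc⟩
  left_inv p := by
    apply Pc.ext
    intro c
    simp only [cm_symm']
    rw [inv_smul_smul]
  right_inv p := by
    apply Pc.ext
    intro c
    simp only [cm_symm]
    rw [smul_inv_smul]
  map_rel_iff' {q p} := by
    constructor
    · intro H c hc
      have h1 := H (cm h c) (by
        simp only [Equiv.coe_fn_mk, cm_symm']
        exact units_smul_ne.2 hc)
      simp only [Equiv.coe_fn_mk, cm_symm'] at h1
      exact smul_left_cancel _ h1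
    · intro H c hc
      simp only [Equiv.coe_fn_mk] at hc ⊢
      rw [H _ (units_smul_ne.1 hc)]

theorem R_mk (h : V ≃+ V) (t : Cl → ℤˣ) : R (mk h t) h t := fun _ _ => rfl

theorem R_one : R 1 (AddEquiv.refl V) (fun _ => 1) := by
  intro p c
  rw [one_smul]
  rfl

theorem R_mul {σ τ : Pc ≃o Pc} {h k : V ≃+ V} {t u : Cl → ℤˣ} (h1 : R σ h t) (h2 : R τ k u) :
    R (σ * τ) (k.trans h) (fun c => t c * u (cm h.symm c)) := by
  intro p c
  change (σ (τ p)).1 c = _
  rw [h1, h2, smul_smul]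
  rfl

theorem R_inv {σ : Pc ≃o Pc} {h : V ≃+ V} {t : Cl → ℤˣ} (h1 : R σ h t) :
    R σ⁻¹ h.symm (fun c => (t (cm h c))⁻¹) := by
  intro p c
  have h2 := h1 (σ⁻¹ p) (cm h c)
  rw [app_inv, cm_symm'] at h2
  rw [AddEquiv.symm_symm, h2, inv_smul_smul]

theorem R_sg {σ : Pc ≃o Pc} {h : V ≃+ V} {t : Cl → ℤˣ} (h1 : R σ h t) (a : V) (n : ℕ)
    (x : ZMod 3) : σ (sg a n x) = sg (h a) n (t (h a, n) • x) := by
  apply Pc.ext
  intro c
  rw [h1, sg_val, sg_val]
  by_cases hc : c = (h a, n)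
  · rw [if_pos hc, if_pos (by rw [hc]; simp [cm]), hc]
  · rw [if_neg hc, if_neg, smul_zero]
    intro h2
    apply hc
    rw [← cm_symm h c, h2]
    rfl

/-- finite support -/
def Fs (t : Cl → ℤˣ) : Prop := {c | t c ≠ 1}.Finite

theorem Fs_one : Fs (fun _ => 1) := by simp [Fs]

theorem Fs_comp {t : Cl → ℤˣ} (ht : Fs t) (h : V ≃+ V) : Fs (fun c => t (cm h c)) :=
  ht.preimage ((cm_inj h).injOn)

theorem Fs_mul {t u : Cl → ℤˣ} (ht : Fs t) (hu : Fs u) : Fs (fun c => t c * u c) := by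
  apply (ht.union hu).subset
  intro c hc
  by_contra h
  rw [Set.mem_union, not_or] at h
  apply hc
  have h1 : t c = 1 := by by_contra h'; exact h.1 h'
  have h2 : u c = 1 := by by_contra h'; exact h.2 h'
  change t c * u c = 1
  rw [h1, h2, one_mul]

theorem Fs_inv {t : Cl → ℤˣ} (ht : Fs t) : Fs (fun c => (t c)⁻¹) := by
  apply ht.subset
  intro c hc h
  apply hc
  change (t c)⁻¹ = 1
  rw [h, inv_one]

variable (U : V → Prop)

theorem Aut_refl (e : Set V) : Aut U e (AddEquiv.refl V) := ⟨fun _ => Iff.rfl, fun _ _ => rfl⟩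

variable {U}

theorem Aut_symm {e : Set V} {h : V ≃+ V} (H : Aut U e h) : Aut U e h.symm := by
  refine ⟨fun v => ?_, fun v hv => ?_⟩
  · rw [← H.1 (h.symm v), h.apply_symm_apply]
  · have := H.2 v hv
    rw [AddEquiv.symm_apply_eq, this]

theorem Aut_trans {e : Set V} {h k : V ≃+ V} (H : Aut U e h) (K : Aut U e k) :
    Aut U e (k.trans h) := by
  refine ⟨fun v => ?_, fun v hv => ?_⟩
  · exact (H.1 (k v)).trans (K.1 v)
  · change h (k v) = v
    rw [K.2 v hv, H.2 v hv]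

theorem Aut_mono {e e' : Set V} {h : V ≃+ V} (he : e ⊆ e') (H : Aut U e' h) : Aut U e h :=
  ⟨H.1, fun v hv => H.2 v (he hv)⟩

variable (U)

/-- the groups -/
def Fx (e : Finset V) : Set (Pc ≃o Pc) :=
  {σ | ∃ (h : V ≃+ V) (t : Cl → ℤˣ), Aut U (e : Set V) h ∧ Fs t ∧ (∀ a ∈ e, ∀ n, t (a, n) = 1) ∧
    R σ h t}

open Classical in
/-- the map of the atoms -/
noncomputable def hm (σ : Pc ≃o Pc) (a : V) : V :=
  if h : ∃ v, (σ (sg a 0 1)).1 (v, 0) ≠ 0 then h.choose else a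

theorem hm_eq {σ : Pc ≃o Pc} {h : V ≃+ V} {t : Cl → ℤˣ} (h1 : R σ h t) (a : V) :
    hm σ a = h a := by
  have h2 : ∀ v, (σ (sg a 0 1)).1 (v, 0) ≠ 0 ↔ v = h a := by
    intro v
    rw [R_sg h1, sg_val]
    constructor
    · intro h3
      by_contra h4
      apply h3
      rw [if_neg]
      intro h5
      exact h4 (congrArg Prod.fst h5)
    · rintro rfl
      rw [if_pos rfl, units_smul_ne]
      decide
  have h3 : ∃ v, (σ (sg a 0 1)).1 (v, 0) ≠ 0 := ⟨h a, (h2 _).2 rfl⟩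
  rw [hm, dif_pos h3]
  exact (h2 _).1 h3.choose_spec

/-- the system -/
noncomputable def Sc : Sys Pc V where
  Fx := Fx U
  one e := ⟨AddEquiv.refl V, fun _ => 1, Aut_refl U _, Fs_one, fun _ _ _ => rfl, R_one⟩
  mul e σ τ := by
    rintro ⟨h, t, h1, h2, h3, h4⟩ ⟨k, u, k1, k2, k3, k4⟩
    refine ⟨_, _, Aut_trans h1 k1, Fs_mul h2 (Fs_comp k2 h.symm), ?_, R_mul h4 k4⟩
    intro a ha n
    have h5 : h.symm a = a := (Aut_symm h1).2 a ha
    simp only [cm, h5]
    rw [h3 a ha, k3 a ha, one_mul]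
  inv e σ := by
    rintro ⟨h, t, h1, h2, h3, h4⟩
    refine ⟨_, _, Aut_symm h1, Fs_inv (Fs_comp h2 h), ?_, R_inv h4⟩
    intro a ha n
    have h5 : h a = a := h1.2 a ha
    simp only [cm, h5]
    rw [h3 a ha, inv_one]
  mono e e' he := by
    rintro σ ⟨h, t, h1, h2, h3, h4⟩
    exact ⟨h, t, Aut_mono (by exact_mod_cast he) h1, h2, fun a ha => h3 a (he ha), h4⟩
  hm := hm
  conj σ := by
    rintro ⟨h, t, h1, h2, h3, h4⟩ e τ ⟨k, u, k1, k2, k3, k4⟩
    have h5 : ∀ a ∈ e, k (h a) = h a := by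
      intro a ha
      apply k1.2
      rw [Finset.mem_coe, Finset.mem_image]
      exact ⟨a, ha, hm_eq h4 a⟩
    have h6 : ∀ a ∈ e, k.symm (h a) = h a := by
      intro a ha
      rw [AddEquiv.symm_apply_eq, h5 a ha]
    refine ⟨_, _, ?_, Fs_mul (Fs_mul (Fs_inv (Fs_comp h2 h)) (Fs_comp k2 h.symm.symm))
      (Fs_comp h2 (k.trans h.symm).symm), ?_, R_mul (R_mul (R_inv h4) k4) h4⟩
    · refine ⟨fun v => ?_, fun v hv => ?_⟩
      · change U (h.symm (k (h v))) ↔ U v
        rw [(Aut_symm h1).1, k1.1, h1.1]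
      · change h.symm (k (h v)) = v
        rw [h5 v hv, h.symm_apply_apply]
    · intro a ha n
      have h7 : u (h a, n) = 1 := by
        apply k3
        rw [Finset.mem_image]
        exact ⟨a, ha, hm_eq h4 a⟩
      have h8 : cm h.symm.symm (a, n) = (h a, n) := rfl
      have h9 : cm (k.trans h.symm).symm (a, n) = (h a, n) := by
        change (k.symm (h a), n) = (h a, n)
        rw [h6 a ha]
      have h10 : cm h (a, n) = (h a, n) := rfl
      simp only [h8, h9, h10, h7, mul_one, inv_mul_cancel]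

/-- the bits -/
def bt (s : Finset ℕ) (n : ℕ) : ZMod 3 := if n ∈ s then 1 else -1

/-- the changed places -/
noncomputable def ch (t : Cl → ℤˣ) (ht : Fs t) (b : V) : Finset ℕ :=
  (Set.Finite.preimage (f := fun n : ℕ => (b, n)) (by
    intro m _ n _ h
    exact congrArg Prod.snd h) ht).toFinset

theorem mem_ch {t : Cl → ℤˣ} {ht : Fs t} {b : V} {n : ℕ} : n ∈ ch t ht b ↔ t (b, n) ≠ 1 := by
  rw [ch, Set.Finite.mem_toFinset]
  rfl

theorem bt_ch {t : Cl → ℤˣ} (ht : Fs t) (b : V) (s : Finset ℕ) (n : ℕ) :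
    t (b, n) • bt s n = bt (symmDiff s (ch t ht b)) n := by
  unfold bt
  rcases Int.units_eq_one_or (t (b, n)) with h | h
  · have h1 : n ∉ ch t ht b := by rw [mem_ch, h]; simp
    rw [h, one_smul]
    by_cases h2 : n ∈ s
    · rw [if_pos h2, if_pos]; rw [Finset.mem_symmDiff]; exact Or.inl ⟨h2, h1⟩
    · rw [if_neg h2, if_neg]; rw [Finset.mem_symmDiff]; tauto
  · have h1 : n ∈ ch t ht b := by rw [mem_ch, h]; decide
    rw [h]
    by_cases h2 : n ∈ s
    · rw [if_pos h2, if_neg]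
      · decide
      · rw [Finset.mem_symmDiff]; tauto
    · rw [if_neg h2, if_pos]
      · decide
      · rw [Finset.mem_symmDiff]; exact Or.inr ⟨h1, h2⟩

theorem fmem_irrefl {P : Type} [Preorder P] (x : Nm P) : ∀ p, ¬ fmem x x p := by
  induction x with
  | mk ι A B ih =>
    intro p h
    obtain ⟨r, _, j, h2, h3⟩ := h p le_rfl
    have h4 : fmem (A j) ⟨ι, A, B⟩ r := fmem_self (⟨ι, A, B⟩ : Nm P) j h2
    exact ih j r (fmem_congr_right h3 h4)

theorem nn_mem {S : Sys Pc V} {n m : ℕ} (h : n < m) (p : Pc) :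
    fmem (nnH S n).1 (nnH S m).1 p := by
  induction m with
  | zero => omega
  | succ m ih =>
    rcases Nat.lt_succ_iff_lt_or_eq.1 h with h1 | h1
    · intro q hq
      obtain ⟨r, hr, j, h2, h3⟩ := ih h1 q hq
      exact ⟨r, hr, some j, h2, h3⟩
    · subst h1
      exact fmem_of (y := (nnH S (n + 1)).1) none le_top (feq_refl _ _)

theorem nn_inj {S : Sys Pc V} {n m : ℕ} {p : Pc} (h : feq (nnH S n).1 (nnH S m).1 p) :
    n = m := by
  rcases lt_trichotomy n m with h1 | h1 | h1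
  · exact absurd (fmem_congr_right (feq_symm h) (nn_mem h1 p)) (fmem_irrefl _ _)
  · exact h1
  · exact absurd (fmem_congr_right h (nn_mem h1 p)) (fmem_irrefl _ _)

/-- the reals -/
noncomputable def ra (a : V) (s : Finset ℕ) : (Sc U).H :=
  mkH (Sc U) (ι := ℕ) (fun n => nnH (Sc U) n) (fun n => sg a n (bt s n)) {a} (by
    intro σ hσ n q hq
    have h0 := Sys.mem0 (Sc U) hσ
    obtain ⟨h, t, h1, h2, h3, h4⟩ := hσ
    have h5 : h a = a := h1.2 a (by simp)
    rw [R_sg h4, h5, h3 a (by simp), one_smul] at hq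
    exact fmem_of (y := ⟨ℕ, fun n => (nnH (Sc U) n).1, fun n => sg a n (bt s n)⟩) n hq
      (nnH_sp n σ h0 q))

theorem act_ra {σ : Pc ≃o Pc} (hσ : σ ∈ (Sc U).Fx ∅) {h : V ≃+ V} {t : Cl → ℤˣ} (h1 : R σ h t)
    (ht : Fs t) (a : V) (s : Finset ℕ) (p : Pc) :
    feq (act σ (ra U a s).1) (ra U (h a) (symmDiff s (ch t ht (h a)))).1 p := by
  refine feq_of_mem (fun i q hq h2 => ?_) (fun n q hq h2 => ?_)
  · obtain ⟨i, rfl⟩ := ai_surj σ (ra U a s).1 i
    rw [act_B] at h2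
    rw [act_A]
    have h3 : σ ((ra U a s).1.B i) = sg (h a) i (bt (symmDiff s (ch t ht (h a))) i) := by
      change σ (sg a i (bt s i)) = _
      rw [R_sg h1, bt_ch ht]
    rw [h3] at h2
    exact fmem_of (y := (ra U (h a) (symmDiff s (ch t ht (h a)))).1) i h2 (nnH_sp i σ hσ q)
  · have h3 : σ (sg a n (bt s n)) = sg (h a) n (bt (symmDiff s (ch t ht (h a))) n) := by
      rw [R_sg h1, bt_ch ht]
    have h4 : q ≤ σ ((ra U a s).1.B n) := by
      change q ≤ σ (sg a n (bt s n))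
      rw [h3]
      exact h2
    exact fmem_act_el (x := (ra U a s).1) n h4 (feq_symm (nnH_sp n σ hσ q))

theorem ra_sp (a : V) (s : Finset ℕ) : (Sc U).Sp {a} (ra U a s).1 := by
  intro σ hσ p
  have h0 := Sys.mem0 (Sc U) hσ
  obtain ⟨h, t, h1, h2, h3, h4⟩ := hσ
  have h5 : h a = a := h1.2 a (by simp)
  have h6 := act_ra U h0 h4 h2 a s p
  have h7 : ch t h2 (h a) = ∅ := by
    ext n
    rw [mem_ch, h5, h3 a (by simp)]
    simp
  rw [h7, h5, ← Finset.bot_eq_empty, symmDiff_bot] at h6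
  exact h6

/-- the atoms -/
noncomputable def pt (a : V) : (Sc U).H :=
  mkH (Sc U) (ι := Finset ℕ) (fun s => ra U a s) (fun _ => ⊤) {a} (by
    intro σ hσ s q _
    exact fmem_of (y := ⟨Finset ℕ, fun s => (ra U a s).1, fun _ => ⊤⟩) s le_top
      (ra_sp U a s σ hσ q))

theorem act_pt {σ : Pc ≃o Pc} (hσ : σ ∈ (Sc U).Fx ∅) (a : V) (p : Pc) :
    feq (act σ (pt U a).1) (pt U ((Sc U).hm σ a)).1 p := by
  obtain ⟨h, t, h1, h2, h3, h4⟩ := id hσ
  have h5 : (Sc U).hm σ a = h a := hm_eq h4 a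
  rw [h5]
  refine feq_of_mem (fun i q hq _ => ?_) (fun (s : Finset ℕ) q hq _ => ?_)
  · obtain ⟨s, rfl⟩ := ai_surj σ (pt U a).1 i
    rw [act_A]
    change Finset ℕ at s
    exact fmem_of (y := (pt U (h a)).1) (id (symmDiff s (ch t h2 (h a)) : Finset ℕ)) le_top
      (act_ra U hσ h4 h2 a s q)
  · have h6 : symmDiff (symmDiff s (ch t h2 (h a))) (ch t h2 (h a)) = s := by
      rw [symmDiff_assoc, symmDiff_self]
      exact symmDiff_bot s
    have h7 := act_ra U hσ h4 h2 a (symmDiff s (ch t h2 (h a))) q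
    rw [h6] at h7
    refine fmem_act_el (x := (pt U a).1) (id (symmDiff s (ch t h2 (h a)) : Finset ℕ)) ?_
      (feq_symm h7)
    exact (OrderIso.symm_apply_le σ).1 le_top

theorem ne_pt (a b : V) (p : Pc) (H : feq (pt U a).1 (pt U b).1 p) : a = b := by
  by_contra hab
  obtain ⟨r, _, (s : Finset ℕ), _, h3⟩ :=
    ((feq_iff _ _ _).1 H).1 (∅ : Finset ℕ) p le_rfl le_top
  have h3' : feq (ra U a ∅).1 (ra U b s).1 r := h3
  obtain ⟨n, hn⟩ : ∃ n : ℕ, n ∉ s ∧ r.1 (a, n) = 0 ∧ r.1 (b, n) = 0 := by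
    have f1 : {n : ℕ | r.1 (a, n) ≠ 0}.Finite :=
      Set.Finite.preimage (f := fun n : ℕ => (a, n)) (by
        intro m _ n _ h
        exact congrArg Prod.snd h) r.2
    have f2 : {n : ℕ | r.1 (b, n) ≠ 0}.Finite :=
      Set.Finite.preimage (f := fun n : ℕ => (b, n)) (by
        intro m _ n _ h
        exact congrArg Prod.snd h) r.2
    obtain ⟨n, hn⟩ := ((s.finite_toSet.union f1).union f2).infinite_compl.nonempty
    simp only [Set.mem_compl_iff, Set.mem_union, Finset.mem_coe, Set.mem_ofPred_eq, not_or,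
      not_not] at hn
    exact ⟨n, hn.1.1, hn.1.2, hn.2⟩
  obtain ⟨hn1, hn2, hn3⟩ := hn
  let r' : Pc := ⟨fun c => if c = (a, n) then -1 else if c = (b, n) then 1 else r.1 c, by
    apply (r.2.union (Set.toFinite {(a, n), (b, n)})).subset
    intro c hc
    by_contra h
    rw [Set.mem_union, not_or] at h
    obtain ⟨h4, h5⟩ := h
    simp only [Set.mem_insert_iff, Set.mem_singleton_iff, not_or] at h5
    apply hc
    simp only
    rw [if_neg h5.1, if_neg h5.2]
    by_contra h6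
    exact h4 h6⟩
  have hr'a : r'.1 (a, n) = -1 := if_pos rfl
  have hr'b : r'.1 (b, n) = 1 := by
    have : ((b, n) : Cl) ≠ (a, n) := fun h => hab (congrArg Prod.fst h).symm
    change (if ((b, n) : Cl) = (a, n) then (-1 : ZMod 3) else if ((b, n) : Cl) = (b, n) then 1 else _) = 1
    rw [if_neg this, if_pos rfl]
  have hr' : r' ≤ r := by
    intro c hc
    change (if c = (a, n) then (-1 : ZMod 3) else if c = (b, n) then 1 else r.1 c) = r.1 c
    rw [if_neg, if_neg]
    · rintro rfl; exact hc hn3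
    · rintro rfl; exact hc hn2
  have hrB : r' ≤ (ra U a ∅).1.B n := by
    intro c hc
    change r'.1 c = (sg a n (bt ∅ n)).1 c
    change (sg a n (bt ∅ n)).1 c ≠ 0 at hc
    rw [sg_val] at hc ⊢
    by_cases h : c = (a, n)
    · rw [if_pos h, h, hr'a]
      simp [bt]
    · rw [if_neg h] at hc
      exact absurd rfl hc
  obtain ⟨r'', h5, m, h6, h7⟩ := ((feq_iff _ _ _).1 h3').1 n r' hr' hrB
  have h7' : feq (nnH (Sc U) n).1 (nnH (Sc U) m).1 r'' := h7
  have hnm := nn_inj h7'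
  subst hnm
  have h8 : r''.1 (b, n) = (sg b n (bt s n)).1 (b, n) := by
    have h9 : r'' ≤ sg b n (bt s n) := h6
    apply h9
    rw [sg_val, if_pos rfl, bt, if_neg hn1]
    decide
  rw [sg_val, if_pos rfl, bt, if_neg hn1] at h8
  have h10 : r''.1 (b, n) = r'.1 (b, n) := h5 _ (by rw [hr'b]; decide)
  rw [h10, hr'b] at h8
  exact absurd h8 (by decide)

open Classical in
/-- the restrictions -/
noncomputable def rs (e : Finset V) (p : Pc) : Pc :=
  ⟨fun c => if c.1 ∈ e then p.1 c else 0, by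
    apply p.2.subset
    intro c hc h
    apply hc
    simp only
    split_ifs
    · exact h
    · rfl⟩

theorem rs_pos {e : Finset V} {p : Pc} {c : Cl} (h : c.1 ∈ e) : (rs e p).1 c = p.1 c := if_pos h

theorem rs_neg {e : Finset V} {p : Pc} {c : Cl} (h : c.1 ∉ e) : (rs e p).1 c = 0 := if_neg h

theorem le_rs (e : Finset V) (p : Pc) : p ≤ rs e p := by
  intro c hc
  by_cases h : c.1 ∈ e
  · rw [rs_pos h]
  · rw [rs_neg h] at hc
    exact absurd rfl hc

theorem ex (e : Finset V) (h : V ≃+ V) (H : Aut U e h) :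
    ∃ σ ∈ (Sc U).Fx e, (∀ a, (Sc U).hm σ a = h a) ∧ ∀ p, σ (rs e p) = rs e p := by
  refine ⟨mk h (fun _ => 1), ⟨h, fun _ => 1, H, Fs_one, fun _ _ _ => rfl, R_mk _ _⟩,
    fun a => hm_eq (R_mk _ _) a, fun p => ?_⟩
  apply Pc.ext
  intro c
  rw [R_mk h (fun _ => 1) (rs e p) c, one_smul]
  by_cases hc : c.1 ∈ e
  · have h1 : cm h.symm c = c := by
      have := (Aut_symm H).2 c.1 hc
      rw [cm, this]
    rw [h1]
  · rw [rs_neg hc, rs_neg]
    intro h1
    change h.symm c.1 ∈ e at h1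
    apply hc
    have h2 := H.2 _ h1
    rw [h.apply_symm_apply] at h2
    rw [h2]; exact h1

theorem z3 : ∀ x y : ZMod 3, x ≠ 0 → y ≠ 0 → x ≠ y → (-1 : ℤˣ) • x = y := by decide

theorem compat (e : Finset V) (p q : Pc) (hq : q ≤ rs e p) :
    ∃ σ ∈ (Sc U).Fx e, (∀ a, (Sc U).hm σ a = a) ∧ ∃ r, r ≤ σ p ∧ r ≤ q := by
  classical
  let t : Cl → ℤˣ := fun c => if c.1 ∉ e ∧ p.1 c ≠ 0 ∧ q.1 c ≠ 0 ∧ p.1 c ≠ q.1 c then -1 else 1
  have ht : Fs t := by
    apply p.2.subset
    intro c hc h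
    apply hc
    change (if c.1 ∉ e ∧ p.1 c ≠ 0 ∧ q.1 c ≠ 0 ∧ p.1 c ≠ q.1 c then (-1 : ℤˣ) else 1) = 1
    rw [if_neg]
    rintro ⟨_, h1, _⟩
    exact h1 h
  have hte : ∀ a ∈ e, ∀ n, t (a, n) = 1 := by
    intro a ha n
    apply if_neg
    rintro ⟨h1, _⟩
    exact h1 ha
  refine ⟨mk (AddEquiv.refl V) t, ⟨AddEquiv.refl V, t, Aut_refl U _, ht, hte, R_mk _ _⟩,
    fun a => hm_eq (R_mk _ _) a, ?_⟩
  have hσ : ∀ c, (mk (AddEquiv.refl V) t p).1 c = t c • p.1 c := fun c => rfl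
  let r : Pc := ⟨fun c => if q.1 c ≠ 0 then q.1 c else t c • p.1 c, by
    apply (q.2.union p.2).subset
    intro c hc
    by_contra h
    rw [Set.mem_union, not_or] at h
    have h1 : q.1 c = 0 := by by_contra h'; exact h.1 h'
    have h2 : p.1 c = 0 := by by_contra h'; exact h.2 h'
    apply hc
    simp only
    rw [if_neg (not_not.2 h1), h2, smul_zero]⟩
  have hr : ∀ c, r.1 c = if q.1 c ≠ 0 then q.1 c else t c • p.1 c := fun c => rfl
  refine ⟨r, fun c hc => ?_, fun c hc => ?_⟩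
  · rw [hσ] at hc ⊢
    rw [hr]
    have hpc : p.1 c ≠ 0 := units_smul_ne.1 hc
    by_cases hqc : q.1 c = 0
    · rw [if_neg (not_not.2 hqc)]
    · rw [if_pos hqc]
      by_cases hce : c.1 ∈ e
      · have h1 : q.1 c = (rs e p).1 c := hq c (by rw [rs_pos hce]; exact hpc)
        rw [rs_pos hce] at h1
        have h2 : t c = 1 := hte c.1 hce c.2
        rw [h1, h2, one_smul]
      · by_cases hpq : p.1 c = q.1 c
        · have h2 : t c = 1 := if_neg (fun h => h.2.2.2 hpq)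
          rw [h2, one_smul, hpq]
        · have h2 : t c = -1 := if_pos ⟨hce, hpc, hqc, hpq⟩
          rw [h2, z3 _ _ hpc hqc hpq]
  · rw [hr, if_pos hc]

end Cc

open Cc in
theorem taskPS : TaskPS := by
  intro U
  refine ⟨Pc, inferInstance, inferInstance, inferInstance, Sc U, ⟨?_⟩⟩
  exact
    { pt := pt U
      act_pt := fun σ hσ a p => act_pt U hσ a p
      ne_pt := ne_pt U
      hm_fix := by
        rintro e σ ⟨h, t, h1, h2, h3, h4⟩ a ha
        have h5 : (Sc U).hm σ a = h a := hm_eq h4 a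
        rw [h5]
        exact h1.2 a ha
      hm_add := by
        rintro σ ⟨h, t, h1, h2, h3, h4⟩ a b
        have h5 : ∀ a, (Sc U).hm σ a = h a := fun a => hm_eq h4 a
        rw [h5, h5, h5, map_add]
      hm_U := by
        rintro σ ⟨h, t, h1, h2, h3, h4⟩ a
        have h5 : (Sc U).hm σ a = h a := hm_eq h4 a
        rw [h5]
        exact h1.1 a
      rs := rs
      le_rs := le_rs
      ex := ex U
      compat := compat U }

end Pool.Agent.H839R3.Nas
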